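import Pool.Agent.R783.BV.Main

/-!
# The inclusion `ΓBV ⊂ ΛBV_c`

A necessary and sufficient condition, in terms of the partial sums of the reciprocals of the two
sequences, for every function of bounded `Γ`-variation to be continuous in `Λ`-variation.
-/

namespace Pool.Agent.Results.MP_b91a69_an.InclusionIff

open Finset Filter Topology Pool.Agent.R783.BV
open scoped ENNReal

/-- `f` has bounded `Λ`-variation on `[a,b]`. -/
def MemBV (a b : ℝ) (lam : ℕ → ℝ) (f : ℝ → ℝ) : Prop := Var a b lam f < ⊤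

/-- `f` is continuous in `Λ`-variation on `[a,b]`: it has bounded `Λ`-variation and the variations
with respect to the shifted sequences `(λ_{m+i})_i` tend to `0` as `m → ∞`. -/
def MemBVc (a b : ℝ) (lam : ℕ → ℝ) (f : ℝ → ℝ) : Prop :=
  Var a b lam f < ⊤ ∧ Tendsto (fun m => Var a b (fun i => lam (m + i)) f) atTop (𝓝 0)

/-- **Characterization of the inclusion.** With `G(n) = ∑_{i<n} 1/γ_i`, `L(n) = ∑_{i<n} 1/λ_i`:
`ΓBV ⊂ ΛBV_c` if and only if `L(n) = O(G(n))` and `L(n)/G(n)` is small for all large `n` for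
which `G(2n)/G(n)` is close to `2`. -/
theorem result {a b : ℝ} (hab : a < b) {gam lam : ℕ → ℝ} (hg : LSeq gam) (hl : LSeq lam) :
    (∀ f : ℝ → ℝ, MemBV a b gam f → MemBVc a b lam f) ↔
    (∃ C : ℝ, ∀ n : ℕ, ∑ i ∈ range n, 1 / lam i ≤ C * ∑ i ∈ range n, 1 / gam i) ∧
    (∀ ε > 0, ∃ δ > 0, ∃ N : ℕ, ∀ n ≥ N,
      (2 - δ) * ∑ i ∈ range n, 1 / gam i ≤ ∑ i ∈ range (2 * n), 1 / gam i →
      ∑ i ∈ range n, 1 / lam i ≤ ε * ∑ i ∈ range n, 1 / gam i) :=
  main hab hg hl

end Pool.Agent.Results.MP_b91a69_an.InclusionIff
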